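import Pool.Agent.Lib.MP_c55a01_nt.Proof

open Pool.Agent.Lib.MP_c55a01_nt

/-- There is a 2-automatic coefficient sequence with values in {1, -1} whose recurrence
`r 0 = 0`, `r 1 = 1`, `r n = a n * r (n-1) + r (n-2)` has a sign sequence that is not
`k`-automatic for any `k ≥ 2`. -/
theorem Pool.Agent.Results.MP_c55a01_nt.SignNotAutomatic.result :
    ∃ a : ℕ → ℤ, (∀ n, a n = 1 ∨ a n = -1) ∧ IsKAutomatic 2 a ∧
      ¬ IsAutomatic (fun n => Int.sign (recSeq a n)) :=
  ⟨coef, coef_cases, coef_automatic, not_automatic⟩
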